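import Pool.Agent.Y96.HP.Pers
import Pool.Agent.H709U.TopR

/-! # The number of limit cycles is at most cubic in the degree, with weights

For every polynomial vector field of degree at most `n` we give every closed orbit a weight: the
length of the set of angles up to which it survives when the field is rotated, with diameters within
a factor of two of its own. Every limit cycle has positive weight, and the sum of the weights of all
closed orbits of diameter in `[r, R]` is at most `8 π n³ (3 + log₂ (R / r))`; summed over all scales,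
with another factor `(1 + |log₂ diameter|)⁻²`, it is at most `(32 π³ / 3) n³`. -/

open Set MeasureTheory
open scoped ENNReal

namespace Pool.Agent.Results.MP_95e7ec_an.SurvivalCubic

/-- the vector field `(P, Q)` rotated by the angle `a` -/
noncomputable def rotated (P Q : MvPolynomial (Fin 2) ℝ) (a : ℝ) (z : ℝ × ℝ) : ℝ × ℝ :=
  (Real.cos a * MvPolynomial.eval ![z.1, z.2] P - Real.sin a * MvPolynomial.eval ![z.1, z.2] Q,
    Real.sin a * MvPolynomial.eval ![z.1, z.2] P + Real.cos a * MvPolynomial.eval ![z.1, z.2] Q)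

/-- all closed orbits in the plane (ranges of nonconstant periodic solutions, limit cycles or not)
of the system `x' = P, y' = Q` -/
def closedOrbits (P Q : MvPolynomial (Fin 2) ℝ) : Set (Set (ℝ × ℝ)) :=
  {C | ∃ γ : ℝ → ℝ × ℝ, ∃ T : ℝ, 0 < T ∧
    (∀ t : ℝ, HasDerivAt γ
      (MvPolynomial.eval ![(γ t).1, (γ t).2] P, MvPolynomial.eval ![(γ t).1, (γ t).2] Q) t) ∧
    (∀ t : ℝ, γ (t + T) = γ t) ∧ (∃ s t : ℝ, γ s ≠ γ t) ∧ C = Set.range γ}

/-- the limit cycles: closed orbits with a neighbourhood which contains no other closed orbit -/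
def limitCycles (P Q : MvPolynomial (Fin 2) ℝ) : Set (Set (ℝ × ℝ)) :=
  {C | C ∈ closedOrbits P Q ∧
    ∃ U : Set (ℝ × ℝ), IsOpen U ∧ C ⊆ U ∧ ∀ D ∈ closedOrbits P Q, D ⊆ U → D = C}

/-- the Euclidean diameter of a subset of the plane -/
noncomputable def diam (C : Set (ℝ × ℝ)) : ℝ :=
  sSup {d | ∃ x ∈ C, ∃ y ∈ C, d = √((x.1 - y.1) ^ 2 + (x.2 - y.2) ^ 2)}

/-- The closed orbit `C` of `(P, Q)` survives the rotations of the field up to the angle `η`: there
is a continuous path `τ ↦ γ τ`, `0 ≤ τ ≤ 1`, of pairwise different closed orbits of the fields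
rotated by angles `a τ`, which starts with `C` at the angle `0`, ends at the angle `η`, whose
angles in between lie strictly between `0` and `η`, and whose diameters lie between one half of
and twice the diameter of `C`. -/
def Survives (P Q : MvPolynomial (Fin 2) ℝ) (η : ℝ) (C : Set (ℝ × ℝ)) : Prop :=
  ∃ (a : ℝ → ℝ) (γ : ℝ → ℝ → ℝ × ℝ) (T : ℝ → ℝ),
    ContinuousOn a (Icc 0 1) ∧ a 0 = 0 ∧ a 1 = η ∧
    (∀ τ ∈ Ioo 0 1, min 0 η < a τ ∧ a τ < max 0 η) ∧
    ContinuousOn (fun q : ℝ × ℝ => γ q.1 q.2) (Icc 0 1 ×ˢ univ) ∧ ContinuousOn T (Icc 0 1) ∧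
    (∀ τ ∈ Icc 0 1, 0 < T τ ∧ (∀ t, HasDerivAt (γ τ) (rotated P Q (a τ) (γ τ t)) t) ∧
      (∀ t, γ τ (t + T τ) = γ τ t) ∧ (∃ s t, γ τ s ≠ γ τ t) ∧
      (diam C / 2 ≤ diam (range (γ τ)) ∧ diam (range (γ τ)) ≤ 2 * diam C)) ∧
    (∀ τ ∈ Icc 0 1, ∀ τ' ∈ Icc 0 1, range (γ τ) = range (γ τ') → τ = τ') ∧
    C = range (γ 0)

/-- the length of the set of angles `η` in `(-π, π)` such that the closed orbit `C` survives the
rotations up to the angle `η` -/
noncomputable def survival (P Q : MvPolynomial (Fin 2) ℝ) (C : Set (ℝ × ℝ)) : ℝ≥0∞ :=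
  volume {η : ℝ | η ∈ Ioo (-Real.pi) Real.pi ∧ Survives P Q η C}

/-- the closed orbits of diameter between `r` and `R` -/
def between (P Q : MvPolynomial (Fin 2) ℝ) (r R : ℝ) : Set (Set (ℝ × ℝ)) :=
  {C | C ∈ closedOrbits P Q ∧ r ≤ diam C ∧ diam C ≤ R}

/-! ### diameters -/

/-- the Euclidean distance -/
noncomputable def e2 (x y : ℝ × ℝ) : ℝ := √((x.1 - y.1) ^ 2 + (x.2 - y.2) ^ 2)

lemma e2_eq (x y : ℝ × ℝ) : e2 x y = ‖(⟨x.1, x.2⟩ : ℂ) - ⟨y.1, y.2⟩‖ := by
  rw [Complex.norm_def, Complex.normSq_apply]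
  unfold e2
  congr 1
  simp only [Complex.sub_re, Complex.sub_im]
  ring

lemma e2_tri (x y z : ℝ × ℝ) : e2 x z ≤ e2 x y + e2 y z := by
  rw [e2_eq, e2_eq, e2_eq]
  exact norm_sub_le_norm_sub_add_norm_sub _ _ _

lemma e2_comm (x y : ℝ × ℝ) : e2 x y = e2 y x := by
  rw [e2_eq, e2_eq, norm_sub_rev]

lemma e2_cont : Continuous fun q : (ℝ × ℝ) × (ℝ × ℝ) => e2 q.1 q.2 := by
  unfold e2
  fun_prop

/-- the diameter of a compact set is attained -/
lemma diam_mem {D : Set (ℝ × ℝ)} (hD : IsCompact D) (hne : D.Nonempty) :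
    (∃ x ∈ D, ∃ y ∈ D, e2 x y = diam D) ∧ ∀ x ∈ D, ∀ y ∈ D, e2 x y ≤ diam D := by
  obtain ⟨q, hq, hmax⟩ := (hD.prod hD).exists_isMaxOn (hne.prod hne) e2_cont.continuousOn
  have hub : ∀ x ∈ D, ∀ y ∈ D, e2 x y ≤ e2 q.1 q.2 := fun x hx y hy =>
    hmax (show (x, y) ∈ D ×ˢ D from ⟨hx, hy⟩)
  have hd : diam D = e2 q.1 q.2 := by
    unfold diam
    apply le_antisymm
    · refine csSup_le ⟨_, q.1, hq.1, q.2, hq.2, rfl⟩ ?_
      rintro _ ⟨x, hx, y, hy, rfl⟩
      exact hub x hx y hy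
    · refine le_csSup ⟨e2 q.1 q.2, ?_⟩ ⟨q.1, hq.1, q.2, hq.2, rfl⟩
      rintro _ ⟨x, hx, y, hy, rfl⟩
      exact hub x hx y hy
  rw [hd]
  exact ⟨⟨q.1, hq.1, q.2, hq.2, rfl⟩, hub⟩

lemma orbit_compact {γ : ℝ → ℝ × ℝ} {T : ℝ} (hT : 0 < T) (hc : Continuous γ)
    (hp : ∀ t, γ (t + T) = γ t) : IsCompact (range γ) := by
  have h1 : range γ = γ '' Icc 0 T := by
    apply Subset.antisymm
    · rintro _ ⟨t, rfl⟩
      have hper : Function.Periodic γ T := hp
      obtain ⟨y, hy, hty⟩ := hper.exists_mem_Ico₀ hT t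
      exact ⟨y, ⟨hy.1, hy.2.le⟩, hty.symm⟩
    · rintro _ ⟨t, -, rfl⟩
      exact ⟨t, rfl⟩
  rw [h1]
  exact isCompact_Icc.image hc

/-- `D` has diameter between `r` and `R` -/
def DiamIn (r R : ℝ) (D : Set (ℝ × ℝ)) : Prop :=
  (∃ x ∈ D, ∃ y ∈ D, r ≤ √((x.1 - y.1) ^ 2 + (x.2 - y.2) ^ 2)) ∧
    ∀ x ∈ D, ∀ y ∈ D, √((x.1 - y.1) ^ 2 + (x.2 - y.2) ^ 2) ≤ R

lemma diamIn_iff {D : Set (ℝ × ℝ)} (hD : IsCompact D) (hne : D.Nonempty) {r R : ℝ} :
    DiamIn r R D ↔ r ≤ diam D ∧ diam D ≤ R := by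
  obtain ⟨⟨x, hx, y, hy, hxy⟩, hub⟩ := diam_mem hD hne
  constructor
  · rintro ⟨⟨u, hu, v, hv, huv⟩, h⟩
    exact ⟨huv.trans (hub u hu v hv), by rw [← hxy]; exact h x hx y hy⟩
  · rintro ⟨h1, h2⟩
    exact ⟨⟨x, hx, y, hy, by rw [← hxy] at h1; exact h1⟩, fun u hu v hv => (hub u hu v hv).trans h2⟩

lemma survives_iff (P Q : MvPolynomial (Fin 2) ℝ) (η : ℝ) (C : Set (ℝ × ℝ)) :
    Survives P Q η C ↔ W960.HP.PersG (H709R2.field P Q)
      (fun _ D => diam C / 2 ≤ diam D ∧ diam D ≤ 2 * diam C) η C := Iff.rfl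

/-- change of the property in the persistence -/
lemma persG_of {F : ℝ × ℝ → ℝ × ℝ} {G G' : ℝ → Set (ℝ × ℝ) → Prop} {η : ℝ} {C : Set (ℝ × ℝ)}
    (h : ∀ a D, IsCompact D → D.Nonempty → G a D → G' a D) (hC : W960.HP.PersG F G η C) :
    W960.HP.PersG F G' η C := by
  obtain ⟨a, γ, T, h1, h2, h3, h4, h5, h6, h7, h8, h9⟩ := hC
  refine ⟨a, γ, T, h1, h2, h3, h4, h5, h6, fun τ hτ => ?_, h8, h9⟩
  obtain ⟨k1, k2, k3, k4, k5⟩ := h7 τ hτ
  exact ⟨k1, k2, k3, k4, h _ _ (orbit_compact k1 (continuous_iff_continuousAt.2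
    fun t => (k2 t).continuousAt) k3) (range_nonempty _) k5⟩

variable {n : ℕ} {P Q : MvPolynomial (Fin 2) ℝ}

lemma orbit_facts {C : Set (ℝ × ℝ)} (hC : C ∈ closedOrbits P Q) :
    IsCompact C ∧ C.Nonempty ∧ 0 < diam C := by
  obtain ⟨γ, T, hT, hγ, hp, ⟨s, t, hst⟩, rfl⟩ := hC
  have hK := orbit_compact hT (continuous_iff_continuousAt.2 fun t => (hγ t).continuousAt) hp
  refine ⟨hK, range_nonempty _, ?_⟩
  refine lt_of_lt_of_le ?_ ((diam_mem hK (range_nonempty _)).2 _ ⟨s, rfl⟩ _ ⟨t, rfl⟩)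
  rw [e2_eq, norm_pos_iff, sub_ne_zero]
  intro h
  rw [Complex.ext_iff] at h
  exact hst (Prod.ext h.1 h.2)

/-- the total survival at the scales between `r` and `R` -/
lemma total (hP : P.totalDegree ≤ n) (hQ : Q.totalDegree ≤ n) (hne : P ≠ 0 ∨ Q ≠ 0) {r R : ℝ}
    (hr : 0 < r) (hR : r ≤ R) : ∑' C : between P Q r R, survival P Q C ≤
      ENNReal.ofReal (8 * Real.pi * n ^ 3 * (3 + Real.logb 2 (R / r))) := by
  have hF : ContDiff ℝ 2 (H709R2.field P Q) := H709R2.contDiff_field P Q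
  have hR0 : 0 < R := hr.trans_le hR
  have hlog : Real.logb 2 (2 * R / (r / 2)) = 2 + Real.logb 2 (R / r) := by
    rw [show 2 * R / (r / 2) = 2 ^ 2 * (R / r) by field_simp,
      Real.logb_mul (by norm_num) (by positivity), Real.logb_pow]
    norm_num
  have hlog0 : 0 ≤ Real.logb 2 (R / r) := Real.logb_nonneg (by norm_num) (by
    rw [le_div_iff₀ hr, one_mul]
    exact hR)
  have h := W960.HP.totalG hF (G := fun _ D => DiamIn (r / 2) (2 * R) D) (fun _ _ h => h)
    (K := 4 * Real.pi * n ^ 3 * (1 + Real.logb 2 (2 * R / (r / 2)))) (by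
      rw [hlog]; positivity)
    (H709U.cubicPerScale hP hQ hne (by linarith) (by linarith)) (between P Q r R)
  refine le_trans (ENNReal.tsum_le_tsum fun C => measure_mono ?_)
    (h.trans (ENNReal.ofReal_le_ofReal (le_of_eq (by rw [hlog]; ring))))
  rintro η ⟨h1, h2⟩
  refine ⟨h1, persG_of (fun a D hD hDne h3 => ?_) ((survives_iff P Q η C).1 h2)⟩
  rw [diamIn_iff hD hDne]
  obtain ⟨-, h4, h5⟩ := C.2
  constructor <;> linarith [h3.1, h3.2]

/-- every limit cycle has positive survival -/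
lemma pos {C : Set (ℝ × ℝ)} (hC : C ∈ limitCycles P Q) : 0 < survival P Q C := by
  have hF : ContDiff ℝ 2 (H709R2.field P Q) := H709R2.contDiff_field P Q
  obtain ⟨hC1, U, hU, hCU, hiso⟩ := hC
  obtain ⟨hK, hKne, hd⟩ := orbit_facts hC1
  obtain ⟨⟨x, hx, y, hy, hxy⟩, hub⟩ := diam_mem hK hKne
  -- a neighbourhood of `C`
  obtain ⟨V, hV⟩ : ∃ V : Set (ℝ × ℝ), V = ⋃ c ∈ C, {z | e2 z c < diam C / 4} := ⟨_, rfl⟩
  have hVo : IsOpen V := by
    rw [hV]
    refine isOpen_biUnion fun c _ => ?_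
    have h1 : Continuous fun z : ℝ × ℝ => e2 z c := e2_cont.comp (continuous_id.prodMk continuous_const)
    exact isOpen_lt h1 continuous_const
  have hCV : C ⊆ V := by
    intro c hc
    rw [hV, mem_iUnion₂]
    refine ⟨c, hc, ?_⟩
    show e2 c c < diam C / 4
    rw [e2_eq, sub_self, norm_zero]
    positivity
  refine Y96.HP.pos_pers hF hC1 (hU.inter hVo) (subset_inter hCU hCV)
    (fun D hD hDU => hiso D hD (hDU.trans inter_subset_left))
    (G := fun _ D => diam C / 2 ≤ diam D ∧ diam D ≤ 2 * diam C) ?_ Real.pi_pos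
  intro a γ ε₀ hε₀ ha0 hac hγ hC0
  have hx' := hx
  have hy' := hy
  rw [hC0] at hx' hy'
  obtain ⟨s₁, hs₁⟩ := hx'
  obtain ⟨t₁, ht₁⟩ := hy'
  have hnh : Ioo (-ε₀) ε₀ ∈ nhds (0:ℝ) := Ioo_mem_nhds (by linarith) hε₀
  have hcat : ∀ u : ℝ, ContinuousAt (fun s => γ s u) 0 := by
    intro u
    have h1 : ContinuousAt (fun q : ℝ × ℝ => γ q.1 q.2) (0, u) :=
      hγ.continuousAt (prod_mem_nhds hnh Filter.univ_mem)
    exact h1.comp (f := fun s : ℝ => (s, u)) (by fun_prop)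
  have hce : ContinuousAt (fun s => e2 (γ s s₁) (γ s t₁)) 0 :=
    e2_cont.continuousAt.comp (f := fun s => (γ s s₁, γ s t₁)) ((hcat s₁).prodMk (hcat t₁))
  have hev : ∀ᶠ s in nhds (0:ℝ), diam C / 2 < e2 (γ s s₁) (γ s t₁) := by
    refine hce.eventually (lt_mem_nhds ?_)
    simp only [hs₁, ht₁, hxy]
    linarith
  obtain ⟨δ, hδ, hb⟩ := Metric.eventually_nhds_iff.1 hev
  refine ⟨min δ ε₀, lt_min hδ hε₀, min_le_right _ _, fun s hs hsub => ?_⟩
  have hsδ : dist s 0 < δ := by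
    rw [Real.dist_eq, sub_zero, abs_lt]
    exact ⟨by linarith [hs.1, min_le_left δ ε₀], by linarith [hs.2, min_le_left δ ε₀]⟩
  have h1 := hb hsδ
  -- an upper bound for the distances
  have hupper : ∀ u ∈ range (γ s), ∀ v ∈ range (γ s), e2 u v ≤ 2 * diam C := by
    intro u hu v hv
    have hu' := (hsub hu).2
    have hv' := (hsub hv).2
    rw [hV, mem_iUnion₂] at hu' hv'
    obtain ⟨c, hc, huc⟩ := hu'
    obtain ⟨c', hc', hvc⟩ := hv'
    have h2 := e2_tri u c v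
    have h3 := e2_tri c c' v
    have h4 := hub c hc c' hc'
    rw [e2_comm c' v] at h3
    have h5 : e2 u c < diam C / 4 := huc
    have h6 : e2 v c' < diam C / 4 := hvc
    linarith
  show diam C / 2 ≤ diam (range (γ s)) ∧ diam (range (γ s)) ≤ 2 * diam C
  unfold diam
  constructor
  · refine h1.le.trans (le_csSup ⟨2 * diam C, ?_⟩ ⟨_, ⟨s₁, rfl⟩, _, ⟨t₁, rfl⟩, rfl⟩)
    rintro _ ⟨u, hu, v, hv, rfl⟩
    exact hupper u hu v hv
  · refine csSup_le ⟨_, _, ⟨s₁, rfl⟩, _, ⟨t₁, rfl⟩, rfl⟩ ?_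
    rintro _ ⟨u, hu, v, hv, rfl⟩
    exact hupper u hu v hv

/-- a closed orbit which survives up to `η` or `-η` -/
lemma le_survival {C : Set (ℝ × ℝ)} {η : ℝ} (hη : 0 < η) (hη' : η < Real.pi)
    (h : Survives P Q η C ∨ Survives P Q (-η) C) : ENNReal.ofReal η ≤ survival P Q C := by
  rcases h with h | h
  · have h1 := Y96.HP.le_pers (η := η) ⟨by linarith, hη'⟩ ((survives_iff P Q η C).1 h)
    rw [abs_of_pos hη] at h1
    exact h1
  · have h1 := Y96.HP.le_pers (η := -η) ⟨by linarith, by linarith⟩ ((survives_iff P Q _ C).1 h)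
    rw [abs_neg, abs_of_pos hη] at h1
    exact h1

/-- **Every nonzero polynomial vector field `(P, Q)` of degree at most `n`:**

* for all `0 < r ≤ R` the sum of the survival lengths of all closed orbits with diameter in `[r, R]` is
  at most `8 π n³ (3 + log₂ (R / r))`;
* every limit cycle has positive survival length;
* at most `8 π n³ (3 + log₂ (R / r)) / η` closed orbits with diameter in `[r, R]` survive the rotations
  up to `η` or up to `-η`, for all `0 < η < π`;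
* the sum over all closed orbits `C` in the plane of their survival lengths divided by
  `(1 + |log₂ (diam C)|)²` is at most `(32 π³ / 3) n³`. -/
theorem result (n : ℕ) (P Q : MvPolynomial (Fin 2) ℝ) (hP : P.totalDegree ≤ n)
    (hQ : Q.totalDegree ≤ n) (hne : P ≠ 0 ∨ Q ≠ 0) :
    (∀ r R : ℝ, 0 < r → r ≤ R → ∑' C : between P Q r R, survival P Q C ≤
      ENNReal.ofReal (8 * Real.pi * n ^ 3 * (3 + Real.logb 2 (R / r)))) ∧
    (∀ C ∈ limitCycles P Q, 0 < survival P Q C) ∧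
    (∀ r R η : ℝ, 0 < r → r ≤ R → 0 < η → η < Real.pi →
      ({C | C ∈ between P Q r R ∧ (Survives P Q η C ∨ Survives P Q (-η) C)}.encard : ℝ≥0∞) ≤
        ENNReal.ofReal (8 * Real.pi * n ^ 3 * (3 + Real.logb 2 (R / r)) / η)) ∧
    ∑' C : closedOrbits P Q, survival P Q C /
        ENNReal.ofReal ((1 + |Real.logb 2 (diam C)|) ^ 2) ≤
      ENNReal.ofReal (32 * Real.pi ^ 3 / 3 * n ^ 3) := by
  refine ⟨fun r R hr hR => total hP hQ hne hr hR, fun C hC => pos hC,
    fun r R η hr hR hη hη' => ?_, ?_⟩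
  · have h1 := Y96.HP.card_mul_le (total hP hQ hne hr hR)
      (A := {C | C ∈ between P Q r R ∧ (Survives P Q η C ∨ Survives P Q (-η) C)})
      (fun C hC => hC.1) (e := ENNReal.ofReal η) (fun C hC => le_survival hη hη' hC.2)
    rw [ENNReal.ofReal_div_of_pos hη, ENNReal.le_div_iff_mul_le
      (Or.inl (ENNReal.ofReal_pos.2 hη).ne') (Or.inl ENNReal.ofReal_ne_top)]
    exact h1
  · -- dyadic scales
    obtain ⟨S, hS⟩ : ∃ S : ℕ → Set (Set (ℝ × ℝ)), S = fun k : ℕ =>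
      between P Q (2 ^ (k : ℝ)) (2 ^ ((k : ℝ) + 1)) ∪
        between P Q (2 ^ (-(k : ℝ) - 1)) (2 ^ (-(k : ℝ))) := ⟨_, rfl⟩
    have hcov : closedOrbits P Q ⊆ ⋃ k, S k := by
      intro C hC
      obtain ⟨-, -, hd⟩ := orbit_facts hC
      have hpow : (2:ℝ) ^ Real.logb 2 (diam C) = diam C :=
        Real.rpow_logb (by norm_num) (by norm_num) hd
      obtain ⟨l, hl⟩ : ∃ l : ℝ, l = Real.logb 2 (diam C) := ⟨_, rfl⟩
      rw [← hl] at hpow
      rw [mem_iUnion]
      refine ⟨⌊|l|⌋₊, ?_⟩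
      have h1 := Nat.floor_le (abs_nonneg l)
      have h2 := Nat.lt_floor_add_one |l|
      rw [hS]
      rcases le_or_gt 0 l with h0 | h0
      · left
        rw [abs_of_nonneg h0] at h1 h2 ⊢
        refine ⟨hC, ?_, ?_⟩
        · rw [← hpow]
          exact Real.rpow_le_rpow_of_exponent_le (by norm_num) h1
        · rw [← hpow]
          exact Real.rpow_le_rpow_of_exponent_le (by norm_num) h2.le
      · right
        rw [abs_of_neg h0] at h1 h2 ⊢
        refine ⟨hC, ?_, ?_⟩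
        · rw [← hpow]
          exact Real.rpow_le_rpow_of_exponent_le (by norm_num) (by linarith)
        · rw [← hpow]
          exact Real.rpow_le_rpow_of_exponent_le (by norm_num) (by linarith)
    obtain ⟨f, hf⟩ : ∃ f : Set (ℝ × ℝ) → ℝ≥0∞, f = fun C => survival P Q C /
      ENNReal.ofReal ((1 + |Real.logb 2 (diam C)|) ^ 2) := ⟨_, rfl⟩
    -- one scale
    have hone : ∀ (k : ℕ) (r : ℝ), 0 < r → (∀ d, r ≤ d → d ≤ 2 * r → (k : ℝ) ≤ |Real.logb 2 d|) →
        ∑' C : between P Q r (2 * r), f C ≤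
          ENNReal.ofReal (32 * Real.pi * n ^ 3 * (1 / ((k : ℝ) + 1) ^ 2)) := by
      intro k r hr hk
      have h1 : ∑' C : between P Q r (2 * r), f C ≤ ∑' C : between P Q r (2 * r),
          survival P Q C * (ENNReal.ofReal (((k : ℝ) + 1) ^ 2))⁻¹ := by
        refine ENNReal.tsum_le_tsum fun C => ?_
        rw [hf]
        simp only
        rw [div_eq_mul_inv]
        refine mul_le_mul_right (ENNReal.inv_le_inv.2 (ENNReal.ofReal_le_ofReal ?_)) _
        have h2 := hk _ C.2.2.1 C.2.2.2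
        exact pow_le_pow_left₀ (by positivity) (by linarith) 2
      refine h1.trans ?_
      rw [ENNReal.tsum_mul_right]
      have h2 := total hP hQ hne hr (by linarith : r ≤ 2 * r)
      have h3 : Real.logb 2 (2 * r / r) = 1 := by
        rw [mul_div_assoc, div_self hr.ne', mul_one]
        exact Real.logb_self_eq_one (by norm_num)
      rw [h3] at h2
      refine (mul_le_mul_left h2 _).trans (le_of_eq ?_)
      rw [← ENNReal.ofReal_inv_of_pos (by positivity), ← ENNReal.ofReal_mul (by positivity)]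
      congr 1
      field_simp
      ring
    have hk : ∀ k : ℕ, ∑' C : S k, f C ≤
        ENNReal.ofReal (64 * Real.pi * n ^ 3 * (1 / ((k : ℝ) + 1) ^ 2)) := by
      intro k
      rw [hS]
      refine (ENNReal.tsum_union_le f _ _).trans ?_
      have e1 : (2:ℝ) ^ ((k : ℝ) + 1) = 2 * 2 ^ (k : ℝ) := by
        rw [Real.rpow_add (by norm_num), Real.rpow_one, mul_comm]
      have e2 : (2:ℝ) ^ (-(k : ℝ)) = 2 * 2 ^ (-(k : ℝ) - 1) := by
        rw [Real.rpow_sub (by norm_num), Real.rpow_one]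
        ring
      rw [e1, e2]
      have h1 := hone k (2 ^ (k : ℝ)) (by positivity) (by
        intro d hd1 _
        have h2 : (k : ℝ) ≤ Real.logb 2 d := by
          rw [Real.le_logb_iff_rpow_le (by norm_num) (lt_of_lt_of_le (by positivity) hd1)]
          exact hd1
        exact h2.trans (le_abs_self _))
      have h3 := hone k (2 ^ (-(k : ℝ) - 1)) (by positivity) (by
        intro d hd1 hd2
        rw [← e2] at hd2
        have h2 : Real.logb 2 d ≤ -(k : ℝ) := by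
          rw [Real.logb_le_iff_le_rpow (by norm_num) (lt_of_lt_of_le (by positivity) hd1)]
          exact hd2
        have h4 := neg_le_abs (Real.logb 2 d)
        linarith)
      refine (add_le_add h1 h3).trans (le_of_eq ?_)
      rw [← ENNReal.ofReal_add (by positivity) (by positivity)]
      congr 1
      ring
    have hsum : HasSum (fun k : ℕ => 64 * Real.pi * (n : ℝ) ^ 3 * (1 / ((k : ℝ) + 1) ^ 2))
        (64 * Real.pi * (n : ℝ) ^ 3 * (Real.pi ^ 2 / 6)) := by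
      refine HasSum.mul_left _ ?_
      have h1 := hasSum_zeta_two
      have h2 := (hasSum_nat_add_iff' (f := fun k : ℕ => 1 / (k : ℝ) ^ 2) 1).2 h1
      simp only [Finset.sum_range_one, Nat.cast_add, Nat.cast_one] at h2
      simpa using h2
    have hfin : ∑' C : closedOrbits P Q, f C ≤
        ENNReal.ofReal (64 * Real.pi * (n : ℝ) ^ 3 * (Real.pi ^ 2 / 6)) :=
      calc ∑' C : closedOrbits P Q, f C ≤ ∑' C : ⋃ k, S k, f C :=
            ENNReal.tsum_mono_subtype f hcov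
        _ ≤ ∑' k, ∑' C : S k, f C := ENNReal.tsum_iUnion_le_tsum f S
        _ ≤ ∑' k : ℕ, ENNReal.ofReal (64 * Real.pi * n ^ 3 * (1 / ((k : ℝ) + 1) ^ 2)) :=
            ENNReal.tsum_le_tsum hk
        _ = ENNReal.ofReal (64 * Real.pi * (n : ℝ) ^ 3 * (Real.pi ^ 2 / 6)) := by
            rw [← ENNReal.ofReal_tsum_of_nonneg (fun k => by positivity) hsum.summable,
              hsum.tsum_eq]
    rw [show 64 * Real.pi * (n : ℝ) ^ 3 * (Real.pi ^ 2 / 6) = 32 * Real.pi ^ 3 / 3 * n ^ 3 by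
      ring, hf] at hfin
    exact hfin

end Pool.Agent.Results.MP_95e7ec_an.SurvivalCubic
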