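import Pool.Agent.Y96.HP.Pers
import Pool.Agent.H709U.TopG

/-! # The number of star-shaped limit cycles is at most cubic in the degree, with weights

Here a closed orbit is star-shaped if no tangent line of it passes through a certain singular point
of the field. For all relatively prime `P, Q` of degree at most `n` every star-shaped limit cycle, of
whatever size, has a positive weight, and the sum of the weights is at most `2 π n³`. -/

open Set MeasureTheory
open scoped ENNReal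

namespace Pool.Agent.Results.MP_95e7ec_an.SurvivalRound

/-- the vector field `(P, Q)` rotated by the angle `a` -/
noncomputable def rotated (P Q : MvPolynomial (Fin 2) ℝ) (a : ℝ) (z : ℝ × ℝ) : ℝ × ℝ :=
  (Real.cos a * MvPolynomial.eval ![z.1, z.2] P - Real.sin a * MvPolynomial.eval ![z.1, z.2] Q,
    Real.sin a * MvPolynomial.eval ![z.1, z.2] P + Real.cos a * MvPolynomial.eval ![z.1, z.2] Q)

/-- all closed orbits in the plane (ranges of nonconstant periodic solutions, limit cycles or not)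
of the system `x' = P, y' = Q` -/
def closedOrbits (P Q : MvPolynomial (Fin 2) ℝ) : Set (Set (ℝ × ℝ)) :=
  {C | ∃ γ : ℝ → ℝ × ℝ, ∃ T : ℝ, 0 < T ∧
    (∀ t : ℝ, HasDerivAt γ
      (MvPolynomial.eval ![(γ t).1, (γ t).2] P, MvPolynomial.eval ![(γ t).1, (γ t).2] Q) t) ∧
    (∀ t : ℝ, γ (t + T) = γ t) ∧ (∃ s t : ℝ, γ s ≠ γ t) ∧ C = Set.range γ}

/-- the limit cycles: closed orbits with a neighbourhood which contains no other closed orbit -/
def limitCycles (P Q : MvPolynomial (Fin 2) ℝ) : Set (Set (ℝ × ℝ)) :=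
  {C | C ∈ closedOrbits P Q ∧
    ∃ U : Set (ℝ × ℝ), IsOpen U ∧ C ⊆ U ∧ ∀ D ∈ closedOrbits P Q, D ⊆ U → D = C}

/-- the closed orbit `C` of the field rotated by `a` is `β`-round: some common zero `p` of `P` and
`Q` has, for every `z ∈ C`, distance greater than `β |z - p|` from the tangent line of `C` at
`z` -/
def Round (P Q : MvPolynomial (Fin 2) ℝ) (β a : ℝ) (C : Set (ℝ × ℝ)) : Prop :=
  ∃ p : ℝ × ℝ, MvPolynomial.eval ![p.1, p.2] P = 0 ∧ MvPolynomial.eval ![p.1, p.2] Q = 0 ∧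
    ∀ z ∈ C, β * √((z.1 - p.1) ^ 2 + (z.2 - p.2) ^ 2) *
        √((rotated P Q a z).1 ^ 2 + (rotated P Q a z).2 ^ 2) <
      |(z.1 - p.1) * (rotated P Q a z).2 - (z.2 - p.2) * (rotated P Q a z).1|

/-- the closed orbit `C` of `(P, Q)` is star-shaped: no tangent line of `C` passes through a certain
common zero `p` of `P` and `Q` -/
def Star (P Q : MvPolynomial (Fin 2) ℝ) (C : Set (ℝ × ℝ)) : Prop :=
  ∃ p : ℝ × ℝ, MvPolynomial.eval ![p.1, p.2] P = 0 ∧ MvPolynomial.eval ![p.1, p.2] Q = 0 ∧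
    ∀ z ∈ C, (z.1 - p.1) * MvPolynomial.eval ![z.1, z.2] Q ≠
      (z.2 - p.2) * MvPolynomial.eval ![z.1, z.2] P

/-- The closed orbit `C` of `(P, Q)` survives, as a `β`-round closed orbit, the rotations of the field
up to the angle `η`: there is a continuous path `τ ↦ γ τ`, `0 ≤ τ ≤ 1`, of pairwise different
`β`-round closed orbits of the fields rotated by angles `a τ`, which starts with `C` at the
angle `0`, ends at the angle `η`, and whose angles in between lie strictly between `0` and `η`. -/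
def Survives (P Q : MvPolynomial (Fin 2) ℝ) (β η : ℝ) (C : Set (ℝ × ℝ)) : Prop :=
  ∃ (a : ℝ → ℝ) (γ : ℝ → ℝ → ℝ × ℝ) (T : ℝ → ℝ),
    ContinuousOn a (Icc 0 1) ∧ a 0 = 0 ∧ a 1 = η ∧
    (∀ τ ∈ Ioo 0 1, min 0 η < a τ ∧ a τ < max 0 η) ∧
    ContinuousOn (fun q : ℝ × ℝ => γ q.1 q.2) (Icc 0 1 ×ˢ univ) ∧ ContinuousOn T (Icc 0 1) ∧
    (∀ τ ∈ Icc 0 1, 0 < T τ ∧ (∀ t, HasDerivAt (γ τ) (rotated P Q (a τ) (γ τ t)) t) ∧
      (∀ t, γ τ (t + T τ) = γ τ t) ∧ (∃ s t, γ τ s ≠ γ τ t) ∧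
      Round P Q β (a τ) (range (γ τ))) ∧
    (∀ τ ∈ Icc 0 1, ∀ τ' ∈ Icc 0 1, range (γ τ) = range (γ τ') → τ = τ') ∧
    C = range (γ 0)

/-- the length of the set of angles `η` in `(-π, π)` such that the closed orbit `C` survives, as a
`β`-round closed orbit, the rotations up to the angle `η` -/
noncomputable def survival (P Q : MvPolynomial (Fin 2) ℝ) (β : ℝ) (C : Set (ℝ × ℝ)) : ℝ≥0∞ :=
  volume {η : ℝ | η ∈ Ioo (-Real.pi) Real.pi ∧ Survives P Q β η C}

/-- the weight of a closed orbit: the sum over `k = 1, 2, …` of its survival lengths as a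
`2 ^ (-k)`-round closed orbit divided by `8 ^ k` -/
noncomputable def weight (P Q : MvPolynomial (Fin 2) ℝ) (C : Set (ℝ × ℝ)) : ℝ≥0∞ :=
  ∑' k : ℕ, survival P Q (1 / 2 ^ (k + 1)) C / 8 ^ (k + 1)

lemma survives_iff (P Q : MvPolynomial (Fin 2) ℝ) (β η : ℝ) (C : Set (ℝ × ℝ)) :
    Survives P Q β η C ↔ W960.HP.PersG (H709R2.field P Q) (fun α D => Round P Q β α D) η C :=
  Iff.rfl

lemma rot_pi (P Q : MvPolynomial (Fin 2) ℝ) (α : ℝ) (z : ℝ × ℝ) :
    rotated P Q (α + Real.pi) z = (-(rotated P Q α z).1, -(rotated P Q α z).2) := by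
  unfold rotated
  rw [Real.cos_add_pi, Real.sin_add_pi]
  ext <;> simp <;> ring

variable {n : ℕ} {P Q : MvPolynomial (Fin 2) ℝ}

/-- the total survival of the round closed orbits -/
lemma total (hP : P.totalDegree ≤ n) (hQ : Q.totalDegree ≤ n) (hrel : IsRelPrime P Q) {β : ℝ}
    (hβ : 0 < β) (hβ1 : β < 1) : ∑' C : closedOrbits P Q, survival P Q β C ≤
      ENNReal.ofReal (2 * Real.pi * n ^ 3 / β ^ 2) := by
  have hF : ContDiff ℝ 2 (H709R2.field P Q) := H709R2.contDiff_field P Q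
  have hβ2 : 0 < 1 - β ^ 2 := by nlinarith
  set x : ℝ := β / √(1 - β ^ 2) with hx
  have hxpos : 0 < x := div_pos hβ (Real.sqrt_pos.2 hβ2)
  have hx2 : x ^ 2 = β ^ 2 / (1 - β ^ 2) := by
    rw [hx, div_pow, Real.sq_sqrt hβ2.le]
  obtain ⟨g, h1, h2, h3⟩ := H709U.roundCubic hP hQ hrel hxpos
  have hM : H709Q.Maj (fun α => (({D | H709R2.ClosedOrbit (H709U.rf (H709R2.field P Q) α) D ∧
      Round P Q β α D}.encard : ℕ∞) : ℝ≥0∞)) (Real.pi * n ^ 3 / β ^ 2) := by
    refine ⟨g, h1, fun α hα => ?_, h3.trans (ENNReal.ofReal_le_ofReal (le_of_eq ?_))⟩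
    · refine le_trans (ENat.toENNReal_le.2 (encard_le_encard ?_)) (h2 α hα)
      rintro C ⟨hC, p, hp1, hp2, h⟩
      refine ⟨hC, p, Prod.ext hp1 hp2, ?_⟩
      intro z hz
      have h4 := h z hz
      set v := H709U.V (H709R2.field P Q) p α z with hv
      set w := H709U.W (H709R2.field P Q) p α z with hw
      have h5 : (z.1 - p.1) * (rotated P Q α z).2 - (z.2 - p.2) * (rotated P Q α z).1 = v := rfl
      have h6 : ((z.1 - p.1) ^ 2 + (z.2 - p.2) ^ 2) *
          ((rotated P Q α z).1 ^ 2 + (rotated P Q α z).2 ^ 2) = v ^ 2 + w ^ 2 := by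
        have h7 : (z.1 - p.1) * (rotated P Q α z).1 + (z.2 - p.2) * (rotated P Q α z).2 = w := rfl
        rw [← h5, ← h7]
        ring
      rw [mul_assoc, ← Real.sqrt_mul (by positivity), h6, h5] at h4
      have h8 : (β * √(v ^ 2 + w ^ 2)) ^ 2 < |v| ^ 2 := by
        apply pow_lt_pow_left₀ h4 (by positivity) (by norm_num)
      rw [mul_pow, Real.sq_sqrt (by positivity), sq_abs] at h8
      rw [hx2, div_mul_eq_mul_div, div_lt_iff₀ hβ2]
      nlinarith
    · rw [hx2]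
      field_simp
      ring
  have h := W960.HP.totalG hF (G := fun α D => Round P Q β α D) (fun α D h => by
      obtain ⟨p, hp1, hp2, h4⟩ := h
      refine ⟨p, hp1, hp2, fun z hz => ?_⟩
      have h5 := h4 z hz
      rw [rot_pi]
      simp only [neg_sq]
      rwa [show (z.1 - p.1) * -(rotated P Q α z).2 - (z.2 - p.2) * -(rotated P Q α z).1 =
        -((z.1 - p.1) * (rotated P Q α z).2 - (z.2 - p.2) * (rotated P Q α z).1) by ring, abs_neg])
    (K := Real.pi * n ^ 3 / β ^ 2) (by positivity) hM (closedOrbits P Q)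
  exact h.trans (ENNReal.ofReal_le_ofReal (le_of_eq (by ring)))

lemma orbit_compact {γ : ℝ → ℝ × ℝ} {T : ℝ} (hT : 0 < T) (hc : Continuous γ)
    (hp : ∀ t, γ (t + T) = γ t) : IsCompact (range γ) := by
  have h1 : range γ = γ '' Icc 0 T := by
    apply Subset.antisymm
    · rintro _ ⟨t, rfl⟩
      have hper : Function.Periodic γ T := hp
      obtain ⟨y, hy, hty⟩ := hper.exists_mem_Ico₀ hT t
      exact ⟨y, ⟨hy.1, hy.2.le⟩, hty.symm⟩
    · rintro _ ⟨t, -, rfl⟩
      exact ⟨t, rfl⟩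
  rw [h1]
  exact isCompact_Icc.image hc

lemma orbit_facts {C : Set (ℝ × ℝ)} (hC : C ∈ closedOrbits P Q) : IsCompact C ∧ C.Nonempty := by
  obtain ⟨γ, T, hT, hγ, hp, -, rfl⟩ := hC
  exact ⟨orbit_compact hT (continuous_iff_continuousAt.2 fun t => (hγ t).continuousAt) hp,
    range_nonempty _⟩

/-- the defect of roundness -/
noncomputable def gap (P Q : MvPolynomial (Fin 2) ℝ) (β : ℝ) (p : ℝ × ℝ) (q : (ℝ × ℝ) × ℝ) : ℝ :=
  |(q.1.1 - p.1) * (rotated P Q q.2 q.1).2 - (q.1.2 - p.2) * (rotated P Q q.2 q.1).1| -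
    β * √((q.1.1 - p.1) ^ 2 + (q.1.2 - p.2) ^ 2) *
        √((rotated P Q q.2 q.1).1 ^ 2 + (rotated P Q q.2 q.1).2 ^ 2)

lemma eval_cont (P : MvPolynomial (Fin 2) ℝ) :
    Continuous fun z : ℝ × ℝ => MvPolynomial.eval ![z.1, z.2] P := by
  refine (MvPolynomial.continuous_eval P).comp (continuous_pi fun i => ?_)
  fin_cases i
  · exact continuous_fst
  · exact continuous_snd

lemma gap_cont (P Q : MvPolynomial (Fin 2) ℝ) (β : ℝ) (p : ℝ × ℝ) :
    Continuous (gap P Q β p) := by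
  have h1 : Continuous fun q : (ℝ × ℝ) × ℝ => rotated P Q q.2 q.1 := by
    unfold rotated
    have hP := (eval_cont P).comp (continuous_fst : Continuous fun q : (ℝ × ℝ) × ℝ => q.1)
    have hQ := (eval_cont Q).comp (continuous_fst : Continuous fun q : (ℝ × ℝ) × ℝ => q.1)
    have hc : Continuous fun q : (ℝ × ℝ) × ℝ => Real.cos q.2 := by fun_prop
    have hs : Continuous fun q : (ℝ × ℝ) × ℝ => Real.sin q.2 := by fun_prop
    exact ((hc.mul hP).sub (hs.mul hQ)).prodMk ((hs.mul hP).add (hc.mul hQ))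
  have h2 := h1.fst
  have h3 := h1.snd
  unfold gap
  fun_prop

/-- every round limit cycle has positive survival -/
lemma pos {β : ℝ} {C : Set (ℝ × ℝ)} (hC : C ∈ limitCycles P Q) (hround : Round P Q β 0 C) :
    0 < survival P Q β C := by
  have hF : ContDiff ℝ 2 (H709R2.field P Q) := H709R2.contDiff_field P Q
  obtain ⟨hC1, U, hU, hCU, hiso⟩ := hC
  obtain ⟨hK, hKne⟩ := orbit_facts hC1
  obtain ⟨p, hp1, hp2, hp⟩ := hround
  have hWo : IsOpen {q : (ℝ × ℝ) × ℝ | 0 < gap P Q β p q} :=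
    isOpen_lt continuous_const (gap_cont P Q β p)
  obtain ⟨V, A, hVo, hAo, hCV, h0A, hVA⟩ := generalized_tube_lemma hK (isCompact_singleton (x := (0:ℝ)))
    hWo (by
      rintro ⟨z, a⟩ ⟨hz, ha⟩
      have ha0 : a = 0 := ha
      subst ha0
      show 0 < gap P Q β p (z, 0)
      unfold gap
      have := hp z hz
      simp only
      linarith)
  have h0A' : (0:ℝ) ∈ A := h0A rfl
  refine Y96.HP.pos_pers hF hC1 (hU.inter hVo) (subset_inter hCU hCV)
    (fun D hD hDU => hiso D hD (hDU.trans inter_subset_left))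
    (G := fun α D => Round P Q β α D) ?_ Real.pi_pos
  intro a γ ε₀ hε₀ ha0 hac hγ hC0
  have hnh : Ioo (-ε₀) ε₀ ∈ nhds (0:ℝ) := Ioo_mem_nhds (by linarith) hε₀
  have hev : ∀ᶠ s in nhds (0:ℝ), a s ∈ A :=
    (hac.continuousAt hnh).eventually (hAo.mem_nhds (by rw [ha0]; exact h0A'))
  obtain ⟨δ, hδ, hb⟩ := Metric.eventually_nhds_iff.1 hev
  refine ⟨min δ ε₀, lt_min hδ hε₀, min_le_right _ _, fun s hs hsub => ?_⟩
  have hsδ : dist s 0 < δ := by
    rw [Real.dist_eq, sub_zero, abs_lt]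
    exact ⟨by linarith [hs.1, min_le_left δ ε₀], by linarith [hs.2, min_le_left δ ε₀]⟩
  refine ⟨p, hp1, hp2, fun z hz => ?_⟩
  have h1 : 0 < gap P Q β p (z, a s) := hVA (show (z, a s) ∈ V ×ˢ A from ⟨(hsub hz).2, hb hsδ⟩)
  unfold gap at h1
  simp only at h1
  linarith

/-- star-shaped closed orbits are round -/
lemma round_of_star {C : Set (ℝ × ℝ)} (hC : C ∈ closedOrbits P Q) (hs : Star P Q C) :
    ∃ k : ℕ, Round P Q (1 / 2 ^ (k + 1)) 0 C := by
  obtain ⟨hK, hKne⟩ := orbit_facts hC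
  obtain ⟨p, hp1, hp2, hp⟩ := hs
  have hrot : ∀ z, rotated P Q 0 z =
      (MvPolynomial.eval ![z.1, z.2] P, MvPolynomial.eval ![z.1, z.2] Q) := by
    intro z
    unfold rotated
    simp
  obtain ⟨f, hf⟩ : ∃ f : ℝ × ℝ → ℝ, f = fun z =>
    |(z.1 - p.1) * MvPolynomial.eval ![z.1, z.2] Q - (z.2 - p.2) * MvPolynomial.eval ![z.1, z.2] P| :=
    ⟨_, rfl⟩
  obtain ⟨g, hg⟩ : ∃ g : ℝ × ℝ → ℝ, g = fun z => √((z.1 - p.1) ^ 2 + (z.2 - p.2) ^ 2) *
    √((MvPolynomial.eval ![z.1, z.2] P) ^ 2 + (MvPolynomial.eval ![z.1, z.2] Q) ^ 2) := ⟨_, rfl⟩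
  have hPc := eval_cont P
  have hQc := eval_cont Q
  have hfc : Continuous f := by
    rw [hf]
    fun_prop
  have hgc : Continuous g := by
    rw [hg]
    fun_prop
  obtain ⟨z₀, hz₀, hmin⟩ := hK.exists_isMinOn hKne hfc.continuousOn
  obtain ⟨z₁, hz₁, hmax⟩ := hK.exists_isMaxOn hKne hgc.continuousOn
  have hm : 0 < f z₀ := by
    rw [hf]
    exact abs_pos.2 (sub_ne_zero.2 (hp z₀ hz₀))
  have hg0 : 0 ≤ g z₁ := by
    rw [hg]
    positivity
  obtain ⟨k, hk⟩ := pow_unbounded_of_one_lt ((g z₁ + 1) / f z₀) (by norm_num : (1:ℝ) < 2)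
  refine ⟨k, p, hp1, hp2, fun z hz => ?_⟩
  rw [hrot]
  simp only
  have h1 : f z₀ ≤ f z := hmin hz
  have h2 : g z ≤ g z₁ := hmax hz
  have h3 : 1 / 2 ^ (k + 1) * g z < f z := by
    rw [div_lt_iff₀ hm] at hk
    have h4 : (0:ℝ) < 2 ^ (k + 1) := by positivity
    rw [one_div, inv_mul_lt_iff₀ h4, pow_succ]
    have h5 : (0:ℝ) < 2 ^ k := by positivity
    nlinarith [mul_le_mul_of_nonneg_left h1 h5.le]
  rw [hf, hg] at h3
  simp only at h3
  rw [mul_assoc]
  exact h3

/-- **All relatively prime `P`, `Q` of degree at most `n`:**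

* for `0 < β < 1` the sum over all closed orbits in the plane, of all sizes, of their survival lengths
  as `β`-round closed orbits is at most `2 π n³ / β²`; every `β`-round limit cycle has positive
  survival length; and at most `2 π n³ / (β² η)` closed orbits survive as `β`-round closed orbits up to
  `η` or up to `-η`, for all `0 < η < π`;
* the sum of the weights of all closed orbits is at most `2 π n³`, and every star-shaped limit cycle
  has positive weight. -/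
theorem result (n : ℕ) (P Q : MvPolynomial (Fin 2) ℝ) (hP : P.totalDegree ≤ n)
    (hQ : Q.totalDegree ≤ n) (hrel : IsRelPrime P Q) :
    (∀ β : ℝ, 0 < β → β < 1 →
      ∑' C : closedOrbits P Q, survival P Q β C ≤ ENNReal.ofReal (2 * Real.pi * n ^ 3 / β ^ 2) ∧
      (∀ C ∈ limitCycles P Q, Round P Q β 0 C → 0 < survival P Q β C) ∧
      ∀ η : ℝ, 0 < η → η < Real.pi →
        ({C | C ∈ closedOrbits P Q ∧ (Survives P Q β η C ∨ Survives P Q β (-η) C)}.encard : ℝ≥0∞) ≤
          ENNReal.ofReal (2 * Real.pi * n ^ 3 / (β ^ 2 * η))) ∧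
    ∑' C : closedOrbits P Q, weight P Q C ≤ ENNReal.ofReal (2 * Real.pi * n ^ 3) ∧
    ∀ C ∈ limitCycles P Q, Star P Q C → 0 < weight P Q C := by
  refine ⟨fun β hβ hβ1 => ⟨total hP hQ hrel hβ hβ1, fun C hC hr => pos hC hr, fun η hη hη' => ?_⟩,
    ?_, fun C hC hs => ?_⟩
  · have h1 := Y96.HP.card_mul_le (total hP hQ hrel hβ hβ1)
      (A := {C | C ∈ closedOrbits P Q ∧ (Survives P Q β η C ∨ Survives P Q β (-η) C)})
      (fun C hC => hC.1) (e := ENNReal.ofReal η) (fun C hC => by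
        rcases hC.2 with h | h
        · have h1 := Y96.HP.le_pers (η := η) ⟨by linarith, hη'⟩ ((survives_iff P Q β η C).1 h)
          rw [abs_of_pos hη] at h1
          exact h1
        · have h1 := Y96.HP.le_pers (η := -η) ⟨by linarith, by linarith⟩
            ((survives_iff P Q β _ C).1 h)
          rw [abs_neg, abs_of_pos hη] at h1
          exact h1)
    rw [← div_div, ENNReal.ofReal_div_of_pos hη, ENNReal.le_div_iff_mul_le
      (Or.inl (ENNReal.ofReal_pos.2 hη).ne') (Or.inl ENNReal.ofReal_ne_top)]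
    exact h1
  · unfold weight
    rw [ENNReal.tsum_comm]
    have hk : ∀ k : ℕ, ∑' C : closedOrbits P Q, survival P Q (1 / 2 ^ (k + 1)) C / 8 ^ (k + 1) ≤
        ENNReal.ofReal (2 * Real.pi * n ^ 3 * (1 / 2 / 2 ^ k)) := by
      intro k
      have e8 : (8:ℝ≥0∞) ^ (k + 1) = ENNReal.ofReal (8 ^ (k + 1)) := by
        rw [ENNReal.ofReal_pow (by norm_num)]
        norm_num
      simp only [div_eq_mul_inv (_ : ℝ≥0∞)]
      rw [ENNReal.tsum_mul_right, e8]
      have h2 := total hP hQ hrel (β := 1 / 2 ^ (k + 1)) (by positivity) (by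
        rw [div_lt_one (by positivity)]
        exact one_lt_pow₀ (by norm_num) (by omega))
      refine (mul_le_mul_left h2 _).trans (le_of_eq ?_)
      rw [← ENNReal.ofReal_inv_of_pos (by positivity), ← ENNReal.ofReal_mul (by positivity)]
      congr 1
      have e9 : (8:ℝ) ^ (k + 1) = 2 ^ (k + 1) * (2 ^ (k + 1)) ^ 2 := by
        rw [show (8:ℝ) = 2 * 2 ^ 2 by norm_num, mul_pow, ← pow_mul, ← pow_mul, mul_comm 2 (k + 1)]
      rw [e9]
      field_simp
      ring
    refine (ENNReal.tsum_le_tsum hk).trans (le_of_eq ?_)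
    have hs : HasSum (fun k : ℕ => 2 * Real.pi * (n:ℝ) ^ 3 * (1 / 2 / 2 ^ k))
        (2 * Real.pi * (n:ℝ) ^ 3 * 1) := HasSum.mul_left _ (hasSum_geometric_two' 1)
    rw [← ENNReal.ofReal_tsum_of_nonneg (fun k => by positivity) hs.summable, hs.tsum_eq, mul_one]
  · obtain ⟨k, hk⟩ := round_of_star hC.1 hs
    have h1 := pos hC hk
    unfold weight
    refine lt_of_lt_of_le ?_ (ENNReal.le_tsum k)
    exact ENNReal.div_pos h1.ne' (by finiteness)

end Pool.Agent.Results.MP_95e7ec_an.SurvivalRound
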